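import Mathlib
import Pool.Agent.TH84.HC.Cover

/-!
# Normal vectors in a small cap, and illumination
-/

set_option autoImplicit false

open Filter Topology Finset
open scoped RealInnerProductSpace

namespace Pool.Agent.Run7.h533.CW

open Pool.Agent.PZ871 (E)
open Pool.Agent.TH84.HC

/-- `u` is an outward unit normal of `K` at `x` -/
def UnitNormal {d : ℕ} (K : Set (E d)) (x u : E d) : Prop :=
  ‖u‖ = 1 ∧ ∀ z ∈ K, ⟪u, z⟫ ≤ ⟪u, x⟫

/-- the open caps with the centres `v ∈ V` and the angular radius `arcsin √κ` cover the sphere -/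
def Cov (d : ℕ) (κ : ℝ) (V : Finset (E d)) : Prop :=
  ∀ x : E d, x ≠ 0 → ∃ v ∈ V, 0 < ⟪v, x⟫ ∧ (1 - κ) * (‖v‖ ^ 2 * ‖x‖ ^ 2) < ⟪v, x⟫ ^ 2

/-- the norm of a convex combination of unit vectors with pairwise inner products at least `s` -/
theorem hull_norm {d : ℕ} {N : Set (E d)} {s : ℝ} (hs1 : s ≤ 1)
    (h1 : ∀ u ∈ N, ‖u‖ = 1) (h2 : ∀ u ∈ N, ∀ v ∈ N, s ≤ ⟪u, v⟫) {z : E d}
    (hz : z ∈ convexHull ℝ N) : (1 + d * s) / (d + 1) ≤ ‖z‖ ^ 2 := by
  classical
  obtain ⟨ι, hι, p, w, hp, haff, hw, hw1, hwz⟩ := eq_pos_convex_span_of_mem_convexHull hz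
  have hcard : Fintype.card ι ≤ d + 1 := by
    have h3 := haff.card_le_finrank_succ
    have h4 : Module.finrank ℝ (vectorSpan ℝ (Set.range p)) ≤ d := by
      have h5 := Submodule.finrank_le (vectorSpan ℝ (Set.range p))
      simpa using h5
    omega
  have hpN : ∀ i, p i ∈ N := fun i => hp ⟨i, rfl⟩
  have e1 : ‖z‖ ^ 2 = ∑ i, ∑ j, w i * w j * ⟪p i, p j⟫ := by
    rw [← real_inner_self_eq_norm_sq, ← hwz, sum_inner]
    refine Finset.sum_congr rfl fun i _ => ?_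
    rw [inner_sum]
    refine Finset.sum_congr rfl fun j _ => ?_
    rw [inner_smul_left, inner_smul_right]
    simp
    ring
  have e2 : ∑ i, ∑ j, (s * (w i * w j) + if i = j then (1 - s) * (w i) ^ 2 else 0) ≤ ‖z‖ ^ 2 := by
    rw [e1]
    refine Finset.sum_le_sum fun i _ => Finset.sum_le_sum fun j _ => ?_
    have hwij : 0 < w i * w j := mul_pos (hw i) (hw j)
    by_cases hij : i = j
    · subst hij
      simp only [if_true]
      rw [real_inner_self_eq_norm_sq, h1 _ (hpN i)]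
      nlinarith
    · simp only [if_neg hij]
      have := mul_le_mul_of_nonneg_left (h2 _ (hpN i) _ (hpN j)) hwij.le
      linarith
  have e3 : ∑ i, ∑ j, (s * (w i * w j) + if i = j then (1 - s) * (w i) ^ 2 else 0) =
      s + (1 - s) * ∑ i, (w i) ^ 2 := by
    simp only [Finset.sum_add_distrib, Finset.sum_ite_eq, Finset.mem_univ, if_true]
    rw [← Finset.mul_sum]
    congr 1
    rw [show (∑ i, ∑ j, s * (w i * w j)) = s * ((∑ i, w i) * ∑ j, w j) by
      rw [Finset.sum_mul_sum, Finset.mul_sum]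
      refine Finset.sum_congr rfl fun i _ => ?_
      rw [Finset.mul_sum], hw1]
    ring
  have e4 : 1 ≤ (d + 1 : ℝ) * ∑ i, (w i) ^ 2 := by
    have h5 := sq_sum_le_card_mul_sum_sq (s := (Finset.univ : Finset ι)) (f := w)
    rw [hw1, Finset.card_univ] at h5
    have h6 : (Fintype.card ι : ℝ) ≤ d + 1 := by exact_mod_cast hcard
    have h7 : 0 ≤ ∑ i, (w i) ^ 2 := Finset.sum_nonneg fun i _ => sq_nonneg _
    nlinarith
  have hd : (0 : ℝ) < d + 1 := by positivity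
  rw [div_le_iff₀ hd]
  have h8 : (s + (1 - s) * ∑ i, (w i) ^ 2) * (d + 1) ≤ ‖z‖ ^ 2 * (d + 1) :=
    mul_le_mul_of_nonneg_right (e3 ▸ e2) hd.le
  nlinarith

/-- unit vectors with pairwise inner products at least `s` lie in a cap (a weak form of Jung's
theorem on the sphere) -/
theorem jung {d : ℕ} {N : Set (E d)} {s : ℝ} (hs1 : s ≤ 1) (hN : N.Nonempty)
    (h1 : ∀ u ∈ N, ‖u‖ = 1) (h2 : ∀ u ∈ N, ∀ v ∈ N, s ≤ ⟪u, v⟫) :
    ∃ c : E d, (1 + d * s) / (d + 1) ≤ ‖c‖ ^ 2 ∧ ∀ u ∈ N, ‖c‖ ^ 2 ≤ ⟪c, u⟫ := by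
  have hcl : IsClosed (closure (convexHull ℝ N)) := isClosed_closure
  have hcv : Convex ℝ (closure (convexHull ℝ N)) := (convex_convexHull ℝ N).closure
  have hne : (closure (convexHull ℝ N)).Nonempty := (hN.convexHull (𝕜 := ℝ)).closure
  obtain ⟨c, hc, hcn⟩ := exists_norm_eq_iInf_of_complete_convex hne hcl.isComplete hcv 0
  have hin := (norm_eq_iInf_iff_real_inner_le_zero hcv hc).1 hcn
  refine ⟨c, ?_, fun u hu => ?_⟩
  · have hsub : closure (convexHull ℝ N) ⊆ {z | (1 + d * s) / (d + 1) ≤ ‖z‖ ^ 2} :=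
      closure_minimal (fun z hz => hull_norm hs1 h1 h2 hz)
        (isClosed_le continuous_const (by fun_prop))
    exact hsub hc
  · have h3 := hin u (subset_closure (subset_convexHull ℝ N hu))
    rw [zero_sub, inner_neg_left, inner_sub_right, real_inner_self_eq_norm_sq] at h3
    linarith

/-- some `v ∈ V` has positive inner products with all vectors of a small cap -/
theorem hemi {d : ℕ} {N : Set (E d)} {s : ℝ} (hs0 : 0 ≤ s) (hs1 : s ≤ 1) (hN : N.Nonempty)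
    (h1 : ∀ u ∈ N, ‖u‖ = 1) (h2 : ∀ u ∈ N, ∀ v ∈ N, s ≤ ⟪u, v⟫) {V : Finset (E d)}
    (hV : Cov d ((1 + d * s) / (d + 1)) V) : ∃ v ∈ V, ∀ u ∈ N, 0 < ⟪v, u⟫ := by
  obtain ⟨c, hc, hcu⟩ := jung hs1 hN h1 h2
  set κ : ℝ := (1 + d * s) / (d + 1) with hκ
  have hκ0 : 0 < κ := by rw [hκ]; positivity
  have hC : 0 < ‖c‖ ^ 2 := lt_of_lt_of_le hκ0 hc
  have hc0 : c ≠ 0 := by
    intro h
    rw [h] at hC
    simp at hC
  obtain ⟨v, hv, hva, hvb⟩ := hV c hc0
  refine ⟨v, hv, fun u hu => ?_⟩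
  by_contra hneg
  push Not at hneg
  have hb := hcu u hu
  have hu1 := h1 u hu
  set C : ℝ := ‖c‖ ^ 2 with hCdef
  set a : ℝ := ⟪v, c⟫ with ha
  set b : ℝ := ⟪c, u⟫ with hbdef
  have hb0 : 0 < b := lt_of_lt_of_le hC hb
  have hcc : ⟪c, c⟫ = C := real_inner_self_eq_norm_sq c
  have hcs := real_inner_mul_inner_self_le (C • v - a • c) (C • u - b • c)
  have e1 : ⟪C • v - a • c, C • u - b • c⟫ = C ^ 2 * ⟪v, u⟫ - C * a * b := by
    simp only [inner_sub_left, inner_sub_right, inner_smul_left, inner_smul_right,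
      RCLike.conj_to_real]
    rw [← ha, ← hbdef, hcc]
    ring
  have e2 : ⟪C • v - a • c, C • v - a • c⟫ = C ^ 2 * ‖v‖ ^ 2 - C * a ^ 2 := by
    simp only [inner_sub_left, inner_sub_right, inner_smul_left, inner_smul_right,
      RCLike.conj_to_real]
    rw [real_inner_comm v c, ← ha, hcc, real_inner_self_eq_norm_sq]
    ring
  have e3 : ⟪C • u - b • c, C • u - b • c⟫ = C ^ 2 - C * b ^ 2 := by
    simp only [inner_sub_left, inner_sub_right, inner_smul_left, inner_smul_right,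
      RCLike.conj_to_real]
    rw [real_inner_comm c u, ← hbdef, hcc, real_inner_self_eq_norm_sq, hu1]
    ring
  rw [e1, e2, e3] at hcs
  have hvn : 0 ≤ ‖v‖ ^ 2 := sq_nonneg _
  have hab : 0 < C * a * b := mul_pos (mul_pos hC hva) hb0
  have h5 : (C * a * b) ^ 2 ≤ (C ^ 2 * ⟪v, u⟫ - C * a * b) * (C ^ 2 * ⟪v, u⟫ - C * a * b) := by
    have h6 : C ^ 2 * ⟪v, u⟫ ≤ 0 := mul_nonpos_of_nonneg_of_nonpos (sq_nonneg _) hneg
    nlinarith
  have h7 : (C * a * b) ^ 2 ≤ (C ^ 2 * ‖v‖ ^ 2 - C * a ^ 2) * (C ^ 2 - C * b ^ 2) := h5.trans hcs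
  have h8 : C ^ 2 * (a ^ 2 + ‖v‖ ^ 2 * b ^ 2) ≤ C ^ 2 * (‖v‖ ^ 2 * C) := by nlinarith
  have h9 : a ^ 2 + ‖v‖ ^ 2 * b ^ 2 ≤ ‖v‖ ^ 2 * C := le_of_mul_le_mul_left h8 (by positivity)
  have h10 : C * C ≤ b ^ 2 := by nlinarith
  have h11 : ‖v‖ ^ 2 * (κ * C) ≤ ‖v‖ ^ 2 * b ^ 2 :=
    mul_le_mul_of_nonneg_left ((mul_le_mul_of_nonneg_right hc hC.le).trans h10) hvn
  nlinarith

/-- illumination of one boundary point with a small set of normals -/
theorem illum_pt {d : ℕ} {K : Set (E d)} (hK : Convex ℝ K) (hc : IsCompact K)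
    (hi : (interior K).Nonempty) {s : ℝ} (hs0 : 0 ≤ s) (hs1 : s ≤ 1)
    {V : Finset (E d)} (hne : V.Nonempty) (hV : Cov d ((1 + d * s) / (d + 1)) V)
    {x : E d} (hx : x ∈ frontier K)
    (hn : ∀ u v : E d, UnitNormal K x u → UnitNormal K x v → s ≤ ⟪u, v⟫) :
    ∃ v ∈ V, ∃ t : ℝ, 0 < t ∧ x + t • (-v) ∈ interior K := by
  classical
  have hxK : x ∈ K := hc.isClosed.frontier_subset hx
  -- a good direction
  obtain ⟨v, hv, hvN⟩ : ∃ v ∈ V, ∀ u ∈ {u | UnitNormal K x u}, 0 < ⟪v, u⟫ := by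
    by_cases hN : {u | UnitNormal K x u}.Nonempty
    · exact hemi hs0 hs1 hN (fun u hu => hu.1) (fun u hu w hw => hn u w hu hw) hV
    · obtain ⟨v, hv⟩ := hne
      refine ⟨v, hv, fun u hu => absurd ⟨u, hu⟩ hN⟩
  refine ⟨v, hv, ?_⟩
  by_contra hcon
  push Not at hcon
  obtain ⟨f, hf1, hf2, hf3⟩ := sep_ray hK hi hxK (-v) hcon
  set g : E d := (InnerProductSpace.toDual ℝ (E d)).symm f with hg
  have hgf : ∀ y, ⟪g, y⟫ = f y := fun y => InnerProductSpace.toDual_symm_apply (𝕜 := ℝ)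
  have hg0 : g ≠ 0 := by
    intro h0
    obtain ⟨a, ha⟩ := hi
    have h3 := hf1 a ha
    rw [← hgf, ← hgf, h0, inner_zero_left, inner_zero_left] at h3
    exact lt_irrefl _ h3
  have hgn : 0 < ‖g‖ := norm_pos_iff.2 hg0
  have hu : UnitNormal K x (‖g‖⁻¹ • g) := by
    refine ⟨by rw [norm_smul, norm_inv, norm_norm, inv_mul_cancel₀ hgn.ne'], fun z hz => ?_⟩
    rw [inner_smul_left, inner_smul_left, hgf, hgf]
    simp only [RCLike.conj_to_real]
    exact mul_le_mul_of_nonneg_left (hf2 z hz) (inv_nonneg.2 hgn.le)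
  have h4 := hvN _ hu
  rw [inner_smul_right, real_inner_comm, hgf] at h4
  have h5 : 0 < f v := by
    by_contra h6
    push Not at h6
    have := mul_nonpos_of_nonneg_of_nonpos (inv_nonneg.2 hgn.le) h6
    linarith
  rw [map_neg] at hf3
  linarith

/-- the covering number of a body with small sets of normals at the extreme points, with the
exception of finitely many of them -/
theorem coveredF {d : ℕ} (hd : 1 ≤ d) {K : Set (E d)} (hK : Convex ℝ K) (hc : IsCompact K)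
    (hi : (interior K).Nonempty) {s : ℝ} (hs0 : 0 ≤ s) (hs1 : s ≤ 1) (F : Finset (E d))
    (hn : ∀ x ∈ Set.extremePoints ℝ K, x ∉ F → ∀ u v : E d, UnitNormal K x u →
      UnitNormal K x v → s ≤ ⟪u, v⟫)
    {V : Finset (E d)} (hne : V.Nonempty) (hV : Cov d ((1 + d * s) / (d + 1)) V) :
    CoveredBy ((F.card : ℝ) + V.card) K := by
  classical
  obtain ⟨a, ha⟩ := hi
  obtain ⟨T, hT, hcov⟩ := cover_of_illum hK hc ((F.image fun x => a - x) ∪ V.image fun v => -v)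
    ((hne.image _).mono Finset.subset_union_right) (by
    intro x hx
    obtain ⟨y, hy, hdom⟩ := extreme_dom hK hc ⟨a, ha⟩ hx
    by_cases hyF : y ∈ F
    · exact ⟨a - y, Finset.mem_union_left _ (Finset.mem_image_of_mem _ hyF),
        hdom _ (toward_int hK ha hy.1)⟩
    · obtain ⟨v, hv, hvt⟩ := illum_pt hK hc ⟨a, ha⟩ hs0 hs1 hne hV (extreme_frontier hd hy)
        (hn y hy hyF)
      exact ⟨-v, Finset.mem_union_right _ (Finset.mem_image_of_mem _ hv), hdom _ hvt⟩)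
  refine ⟨T, hT.trans ?_, hcov⟩
  have h1 := Finset.card_union_le (F.image fun x => a - x) (V.image fun v => -v)
  have h2 : (F.image fun x => a - x).card ≤ F.card := Finset.card_image_le
  have h3 : (V.image fun v => -v).card ≤ V.card := Finset.card_image_le
  exact_mod_cast h1.trans (by omega)

/-- a set with the covering property is not empty -/
theorem cov_nonempty {d : ℕ} (hd : 1 ≤ d) {κ : ℝ} {V : Finset (E d)} (hV : Cov d κ V) :
    V.Nonempty := by
  obtain ⟨v, hv, _⟩ := hV (EuclideanSpace.single (⟨0, hd⟩ : Fin d) (1:ℝ)) (by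
    intro h0
    have : ‖(EuclideanSpace.single (⟨0, hd⟩ : Fin d) (1:ℝ) : E d)‖ = 1 := by simp
    rw [h0, norm_zero] at this
    exact zero_ne_one this)
  exact ⟨v, hv⟩

end Pool.Agent.Run7.h533.CW
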