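import Mathlib
import Pool.Agent.Run7.h533.CW.Base

/-!
# Intersections of balls
-/

set_option autoImplicit false

open Filter Topology Finset Metric
open scoped RealInnerProductSpace

namespace Pool.Agent.Run7.h533.CW

open Pool.Agent.PZ871 (E)
open Pool.Agent.TH84.HC

/-- the intersection of the closed balls of radius `r` with the centres in `X` -/
def ballBody {d : ℕ} (X : Set (E d)) (r : ℝ) : Set (E d) := ⋂ c ∈ X, Metric.closedBall c r

theorem mem_ballBody {d : ℕ} {X : Set (E d)} {r : ℝ} {x : E d} :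
    x ∈ ballBody X r ↔ ∀ c ∈ X, ‖x - c‖ ≤ r := by
  simp [ballBody, dist_eq_norm]

theorem ballBody_convex {d : ℕ} (X : Set (E d)) (r : ℝ) : Convex ℝ (ballBody X r) :=
  convex_iInter₂ fun c _ => convex_closedBall c r

theorem ballBody_compact {d : ℕ} {X : Set (E d)} (hX : X.Nonempty) (r : ℝ) :
    IsCompact (ballBody X r) := by
  obtain ⟨c, hc⟩ := hX
  exact (isCompact_closedBall c r).of_isClosed_subset
    (isClosed_biInter fun c _ => Metric.isClosed_closedBall) (Set.biInter_subset_of_mem hc)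

/-- facts about the closure of the set of centres -/
theorem closure_facts {d : ℕ} {X : Set (E d)} {r M : ℝ} (hX : X.Nonempty)
    (hX2 : ∀ c ∈ X, ∀ c' ∈ X, ‖c - c'‖ ≤ M) {x : E d} (hx : x ∈ ballBody X r) :
    (∀ c ∈ closure X, ‖x - c‖ ≤ r) ∧ (∀ c ∈ closure X, ∀ c' ∈ closure X, ‖c - c'‖ ≤ M) ∧
      IsCompact (closure X) := by
  have hYx : ∀ c ∈ closure X, ‖x - c‖ ≤ r := by
    have h1 : closure X ⊆ {c | ‖x - c‖ ≤ r} :=
      closure_minimal (fun c hc => mem_ballBody.1 hx c hc)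
        (isClosed_le (by fun_prop) continuous_const)
    exact h1
  have hY1 : ∀ c ∈ X, ∀ c' ∈ closure X, ‖c - c'‖ ≤ M := by
    intro c hc
    have h1 : closure X ⊆ {c' | ‖c - c'‖ ≤ M} := closure_minimal (fun c' hc' => hX2 c hc c' hc')
      (isClosed_le (by fun_prop) continuous_const)
    exact h1
  have hY2 : ∀ c ∈ closure X, ∀ c' ∈ closure X, ‖c - c'‖ ≤ M := by
    intro c hc c' hc'
    have h1 : closure X ⊆ {c | ‖c - c'‖ ≤ M} := closure_minimal (fun c hc => hY1 c hc c' hc')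
      (isClosed_le (by fun_prop) continuous_const)
    exact h1 hc
  refine ⟨hYx, hY2, ?_⟩
  obtain ⟨c, hc⟩ := hX
  refine (isCompact_closedBall c M).of_isClosed_subset isClosed_closure fun y hy => ?_
  rw [mem_closedBall, dist_eq_norm, norm_sub_rev]
  exact hY1 c hc y hy

/-- a step away from all centres at the distance `r` -/
theorem ball_dir' {d : ℕ} {X : Set (E d)} {r M : ℝ} (hr : 0 < r) (hX : X.Nonempty)
    (hX2 : ∀ c ∈ X, ∀ c' ∈ X, ‖c - c'‖ ≤ M) {x : E d} (hx : x ∈ ballBody X r) (v : E d)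
    (hvN : ∀ c ∈ closure X, ‖x - c‖ = r → 0 < ⟪v, x - c⟫) :
    ∃ t R : ℝ, 0 < t ∧ R < r ∧ ∀ c ∈ closure X, ‖x + t • (-v) - c‖ ≤ R := by
  obtain ⟨hYx, hY2, hYc⟩ := closure_facts hX hX2 hx
  have hYne : (closure X).Nonempty := hX.closure
  -- compactness
  obtain ⟨δ, hδ0, hδ⟩ : ∃ δ : ℝ, 0 < δ ∧ ∀ c ∈ closure X, δ ≤ ⟪v, x - c⟫ ∨ δ ≤ r - ‖x - c‖ := by
    obtain ⟨c0, hc0, hmin⟩ := hYc.exists_isMinOn hYne
      (f := fun c => max ⟪v, x - c⟫ (r - ‖x - c‖)) (by fun_prop)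
    refine ⟨max ⟪v, x - c0⟫ (r - ‖x - c0‖), ?_, fun c hc => ?_⟩
    · rcases eq_or_lt_of_le (hYx c0 hc0) with h | h
      · exact lt_max_of_lt_left (hvN c0 hc0 h)
      · exact lt_max_of_lt_right (by linarith)
    · have h1 : max ⟪v, x - c0⟫ (r - ‖x - c0‖) ≤ max ⟪v, x - c⟫ (r - ‖x - c‖) := hmin hc
      exact le_max_iff.1 h1
  set m : ℝ := ‖v‖ + 1 with hm
  have hm0 : 0 < m := by have := norm_nonneg v; linarith
  have hvm : ‖v‖ ≤ m := by linarith
  set t : ℝ := min (δ / (2 * m)) (δ / m ^ 2) with ht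
  have ht0 : 0 < t := lt_min (by positivity) (by positivity)
  have ht1 : t * m ≤ δ / 2 := by
    have h1 : t ≤ δ / (2 * m) := min_le_left _ _
    calc t * m ≤ δ / (2 * m) * m := mul_le_mul_of_nonneg_right h1 hm0.le
      _ = δ / 2 := by field_simp
  have ht2 : t * m ^ 2 ≤ δ := by
    have h1 : t ≤ δ / m ^ 2 := min_le_right _ _
    calc t * m ^ 2 ≤ δ / m ^ 2 * m ^ 2 := mul_le_mul_of_nonneg_right h1 (by positivity)
      _ = δ := by field_simp
  set R : ℝ := max (Real.sqrt (r ^ 2 - t * δ)) (r - δ / 2) with hR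
  have hRr : R < r := by
    rw [hR]
    apply max_lt
    · rw [Real.sqrt_lt' hr]
      have : 0 < t * δ := mul_pos ht0 hδ0
      linarith
    · linarith
  refine ⟨t, R, ht0, hRr, ?_⟩
  intro c hc
  have e : x + t • (-v) - c = (x - c) - t • v := by rw [smul_neg]; abel
  rw [e]
  rcases hδ c hc with h | h
  · apply le_max_of_le_left
    apply Real.le_sqrt_of_sq_le
    rw [norm_sub_sq_real, inner_smul_right, norm_smul, Real.norm_of_nonneg ht0.le,
      real_inner_comm, mul_pow]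
    have h1 : ‖x - c‖ ^ 2 ≤ r ^ 2 := pow_le_pow_left₀ (norm_nonneg _) (hYx c hc) 2
    have h2 : ‖v‖ ^ 2 ≤ m ^ 2 := pow_le_pow_left₀ (norm_nonneg _) hvm 2
    have h3 : t ^ 2 * ‖v‖ ^ 2 ≤ t * δ := by
      calc t ^ 2 * ‖v‖ ^ 2 ≤ t ^ 2 * m ^ 2 := mul_le_mul_of_nonneg_left h2 (by positivity)
        _ = t * (t * m ^ 2) := by ring
        _ ≤ t * δ := mul_le_mul_of_nonneg_left ht2 ht0.le
    have h4 : t * δ ≤ t * ⟪v, x - c⟫ := mul_le_mul_of_nonneg_left h ht0.le
    linarith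
  · apply le_max_of_le_right
    have h1 := norm_sub_le (x - c) (t • v)
    rw [norm_smul, Real.norm_of_nonneg ht0.le] at h1
    have h2 : t * ‖v‖ ≤ t * m := mul_le_mul_of_nonneg_left hvm ht0.le
    linarith

theorem interior_of_lt {d : ℕ} {X : Set (E d)} {r R : ℝ} (hR : R < r) {x : E d}
    (h : ∀ c ∈ X, ‖x - c‖ ≤ R) : x ∈ interior (ballBody X r) := by
  rw [mem_interior_iff_mem_nhds, Metric.mem_nhds_iff]
  refine ⟨r - R, by linarith, fun y hy => ?_⟩
  rw [mem_ball, dist_eq_norm] at hy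
  rw [mem_ballBody]
  intro c hc
  calc ‖y - c‖ = ‖(y - x) + (x - c)‖ := by rw [sub_add_sub_cancel]
    _ ≤ ‖y - x‖ + ‖x - c‖ := norm_add_le _ _
    _ ≤ r := by
        have := h c hc
        linarith

/-- the directions away from all centres at the distance `r` point into the interior -/
theorem ball_dir {d : ℕ} {X : Set (E d)} {r M : ℝ} (hr : 0 < r) (hX : X.Nonempty)
    (hX2 : ∀ c ∈ X, ∀ c' ∈ X, ‖c - c'‖ ≤ M) {x : E d} (hx : x ∈ ballBody X r) (v : E d)
    (hvN : ∀ c ∈ closure X, ‖x - c‖ = r → 0 < ⟪v, x - c⟫) :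
    ∃ t : ℝ, 0 < t ∧ x + t • (-v) ∈ interior (ballBody X r) := by
  obtain ⟨t, R, ht, hR, h⟩ := ball_dir' hr hX hX2 hx v hvN
  exact ⟨t, ht, interior_of_lt hR fun c hc => h c (subset_closure hc)⟩

/-- the unit vectors from the centres at the distance `r` -/
def act {d : ℕ} (X : Set (E d)) (r : ℝ) (x : E d) : Set (E d) :=
  {u : E d | ∃ c ∈ closure X, ‖x - c‖ = r ∧ u = r⁻¹ • (x - c)}

theorem act_unit {d : ℕ} {X : Set (E d)} {r : ℝ} (hr : 0 < r) {x : E d} :
    ∀ u ∈ act X r x, ‖u‖ = 1 := by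
  rintro u ⟨c, _, hcr, rfl⟩
  rw [norm_smul, hcr, norm_inv, Real.norm_of_nonneg hr.le, inv_mul_cancel₀ hr.ne']

theorem act_inner {d : ℕ} {X : Set (E d)} {r D ε : ℝ} (hr : 0 < r) (hX : X.Nonempty)
    (hX2 : ∀ c ∈ X, ∀ c' ∈ X, ‖c - c'‖ ≤ D * r) {x y : E d}
    (hx : x ∈ ballBody X r) (hxy : ‖x - y‖ ≤ ε * r) :
    ∀ u ∈ act X r x, ∀ v ∈ act X r y, 1 - (D + ε) ^ 2 / 2 ≤ ⟪u, v⟫ := by
  obtain ⟨hYx, hY2, hYc⟩ := closure_facts hX hX2 hx
  rintro u ⟨c, hc, hcr, rfl⟩ u' ⟨c', hc', hcr', rfl⟩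
  rw [inner_smul_left, inner_smul_right]
  simp only [RCLike.conj_to_real]
  have h1 := hY2 c' hc' c hc
  have h2 : (x - c) - (y - c') = (x - y) + (c' - c) := by abel
  have h3 := norm_sub_sq_real (x - c) (y - c')
  rw [h2, hcr, hcr'] at h3
  have h0 : ‖(x - y) + (c' - c)‖ ≤ (D + ε) * r := by
    refine (norm_add_le _ _).trans ?_
    linarith
  have h4 : ‖(x - y) + (c' - c)‖ ^ 2 ≤ ((D + ε) * r) ^ 2 :=
    pow_le_pow_left₀ (norm_nonneg _) h0 2
  have h5 : r ^ 2 * (1 - (D + ε) ^ 2 / 2) ≤ ⟪x - c, y - c'⟫ := by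
    rw [mul_pow] at h4
    linarith
  have h6 : 1 - (D + ε) ^ 2 / 2 = r⁻¹ * (r⁻¹ * (r ^ 2 * (1 - (D + ε) ^ 2 / 2))) := by
    field_simp
  rw [h6]
  exact mul_le_mul_of_nonneg_left (mul_le_mul_of_nonneg_left h5 (by positivity)) (by positivity)

/-- a direction away from all centres at the distance `r` exists -/
theorem exists_dir {d : ℕ} {X : Set (E d)} {r D : ℝ} (hr : 0 < r) (hX : X.Nonempty)
    (hX2 : ∀ c ∈ X, ∀ c' ∈ X, ‖c - c'‖ ≤ D * r) (hD : D ^ 2 < 2)
    {x : E d} (hx : x ∈ ballBody X r) :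
    ∃ z : E d, ∀ u ∈ act X r x, 0 < ⟪z, u⟫ := by
  by_cases hN : (act X r x).Nonempty
  · have h1 := act_inner (ε := 0) hr hX hX2 hx (y := x) (by simp)
    rw [add_zero] at h1
    obtain ⟨c, hc, hcu⟩ := jung (s := 1 - D ^ 2 / 2) (by nlinarith [sq_nonneg D]) hN
      (act_unit hr) h1
    refine ⟨c, fun u hu => lt_of_lt_of_le ?_ (hcu u hu)⟩
    refine lt_of_lt_of_le ?_ hc
    have : 0 < 1 - D ^ 2 / 2 := by linarith
    positivity
  · exact ⟨0, fun u hu => absurd ⟨u, hu⟩ hN⟩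

/-- the circumscribed ball is small -/
theorem ballBody_interior {d : ℕ} {X : Set (E d)} {r D : ℝ} (hr : 0 < r) (hX : X.Nonempty)
    (hD0 : 0 ≤ D) (hX2 : ∀ c ∈ X, ∀ c' ∈ X, ‖c - c'‖ ≤ D * r) (hD : D ^ 2 < 2) :
    (interior (ballBody X r)).Nonempty := by
  obtain ⟨c0, hc0⟩ := hX
  set M : ℝ := D * r with hM
  have hM0 : 0 ≤ M := by positivity
  set S : Set (E d × ℝ) := {p | (∀ c ∈ X, ‖p.1 - c‖ ≤ p.2) ∧ p.2 ≤ M} with hS
  have hScl : IsClosed S := by
    have : S = (⋂ c ∈ X, {p : E d × ℝ | ‖p.1 - c‖ ≤ p.2}) ∩ {p | p.2 ≤ M} := by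
      ext p
      simp [hS]
    rw [this]
    exact (isClosed_biInter fun c _ => isClosed_le (by fun_prop) (by fun_prop)).inter
      (isClosed_le (by fun_prop) continuous_const)
  have hSc : IsCompact S := by
    refine ((isCompact_closedBall c0 M).prod (isCompact_Icc (a := (0:ℝ)) (b := M))).of_isClosed_subset
      hScl ?_
    rintro ⟨x, R⟩ ⟨h1, h2⟩
    have h3 := h1 c0 hc0
    refine ⟨?_, (norm_nonneg _).trans h3, h2⟩
    rw [mem_closedBall, dist_eq_norm]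
    exact h3.trans h2
  have hSne : S.Nonempty := ⟨(c0, M), fun c hc => hX2 c0 hc0 c hc, le_rfl⟩
  obtain ⟨⟨x, R⟩, ⟨hxR, hRM⟩, hmin⟩ := hSc.exists_isMinOn hSne (f := fun p => p.2) (by fun_prop)
  simp only at hxR hRM
  by_cases hRr : R < r
  · exact ⟨x, interior_of_lt hRr hxR⟩
  · exfalso
    have hrR : r ≤ R := not_lt.1 hRr
    have hR0 : 0 < R := lt_of_lt_of_le hr hrR
    have hx : x ∈ ballBody X R := mem_ballBody.2 hxR
    have hX3 : ∀ c ∈ X, ∀ c' ∈ X, ‖c - c'‖ ≤ D * R := fun c hc c' hc' =>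
      (hX2 c hc c' hc').trans (mul_le_mul_of_nonneg_left hrR hD0)
    obtain ⟨z, hz⟩ := exists_dir hR0 ⟨c0, hc0⟩ hX3 hD hx
    obtain ⟨t, R', ht, hR', hall⟩ := ball_dir' hR0 ⟨c0, hc0⟩ hX3 hx z (fun c hc hcr => by
      have h1 := hz _ ⟨c, hc, hcr, rfl⟩
      rw [inner_smul_right] at h1
      exact (mul_pos_iff_of_pos_left (inv_pos.2 hR0)).1 h1)
    have h1 : (x + t • (-z), R') ∈ S := ⟨fun c hc => hall c (subset_closure hc), by
      show R' ≤ M
      linarith⟩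
    have h2 : R ≤ R' := hmin h1
    linarith

/-- a closed cone given by inner products -/
theorem sep_cone {d : ℕ} {s : ℝ} (hs : 0 ≤ s) (Wt : Set (E d)) (N : Set (E d)) (z u : E d)
    (hN : ∀ n ∈ N, ∀ w ∈ Wt, s * ‖n‖ ≤ ⟪n, w⟫) (hz : ∀ n ∈ N, 0 < ⟪z, n⟫)
    (hu : ∀ v : E d, (∀ n ∈ N, 0 < ⟪v, n⟫) → 0 < ⟪v, u⟫) : ∀ w ∈ Wt, s * ‖u‖ ≤ ⟪u, w⟫ := by
  by_contra hcon
  set D : Set (E d) := {p | ∀ w ∈ Wt, s * ‖p‖ ≤ ⟪p, w⟫} with hD
  have huD : u ∉ D := hcon
  have hDconv : Convex ℝ D := by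
    intro p hp q hq a b ha hb hab w hw
    have h1 := hp w hw
    have h2 := hq w hw
    rw [inner_add_left, inner_smul_left, inner_smul_left]
    simp only [RCLike.conj_to_real]
    have h3 : ‖a • p + b • q‖ ≤ a * ‖p‖ + b * ‖q‖ := by
      refine (norm_add_le _ _).trans (le_of_eq ?_)
      rw [norm_smul, norm_smul, Real.norm_of_nonneg ha, Real.norm_of_nonneg hb]
    have h4 := mul_le_mul_of_nonneg_left h3 hs
    have h5 := mul_le_mul_of_nonneg_left h1 ha
    have h6 := mul_le_mul_of_nonneg_left h2 hb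
    linarith
  have hDcl : IsClosed D := by
    have : D = ⋂ w ∈ Wt, {p | s * ‖p‖ ≤ ⟪p, w⟫} := by
      ext p
      simp [hD]
    rw [this]
    exact isClosed_biInter fun w _ => isClosed_le (by fun_prop) (by fun_prop)
  obtain ⟨f, a, hfu, hfD⟩ := geometric_hahn_banach_point_closed hDconv hDcl huD
  have h0D : (0 : E d) ∈ D := fun w _ => by simp
  have ha0 : a < 0 := by
    have := hfD 0 h0D
    rwa [map_zero] at this
  have hf0 : ∀ p ∈ D, 0 ≤ f p := by
    intro p hp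
    by_contra h
    push Not at h
    -- scale
    have hsc : (a / f p) • p ∈ D := by
      intro w hw
      have h1 : 0 < a / f p := div_pos_of_neg_of_neg ha0 h
      rw [norm_smul, Real.norm_of_nonneg h1.le, inner_smul_left]
      simp only [RCLike.conj_to_real]
      have h2 := mul_le_mul_of_nonneg_left (hp w hw) h1.le
      linarith
    have h2 := hfD _ hsc
    rw [map_smul, smul_eq_mul, div_mul_cancel₀ _ h.ne] at h2
    exact lt_irrefl _ h2
  set v : E d := (InnerProductSpace.toDual ℝ (E d)).symm f with hv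
  have hvf : ∀ y, ⟪v, y⟫ = f y := fun y => InnerProductSpace.toDual_symm_apply (𝕜 := ℝ)
  have hvu : ⟪v, u⟫ < 0 := by rw [hvf]; linarith
  have hvn : ∀ n ∈ N, 0 ≤ ⟪v, n⟫ := fun n hn => by
    rw [hvf]
    exact hf0 n (hN n hn)
  set ε : ℝ := -⟪v, u⟫ / (2 * (|⟪z, u⟫| + 1)) with hε
  have hzu : 0 ≤ |⟪z, u⟫| := abs_nonneg _
  have hε0 : 0 < ε := div_pos (by linarith) (by positivity)
  have h1 := hu (v + ε • z) (fun n hn => by
    rw [inner_add_left, inner_smul_left]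
    simp only [RCLike.conj_to_real]
    have := mul_pos hε0 (hz n hn)
    linarith [hvn n hn])
  rw [inner_add_left, inner_smul_left] at h1
  simp only [RCLike.conj_to_real] at h1
  have h2 : ε * ⟪z, u⟫ ≤ ε * (|⟪z, u⟫| + 1) :=
    mul_le_mul_of_nonneg_left ((le_abs_self _).trans (by linarith)) hε0.le
  have h3 : ε * (|⟪z, u⟫| + 1) = -⟪v, u⟫ / 2 := by
    rw [hε]
    field_simp
  linarith

/-- the normals of an intersection of balls at near points -/
theorem ballBody_near {d : ℕ} {X : Set (E d)} {r D ε : ℝ} (hr : 0 < r) (hX : X.Nonempty)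
    (hD0 : 0 ≤ D) (hε : 0 ≤ ε) (hX2 : ∀ c ∈ X, ∀ c' ∈ X, ‖c - c'‖ ≤ D * r)
    (hD : (D + ε) ^ 2 < 2) {x y u v : E d} (hx : x ∈ ballBody X r) (hy : y ∈ ballBody X r)
    (hxy : ‖x - y‖ ≤ ε * r)
    (hu : UnitNormal (ballBody X r) x u) (hv : UnitNormal (ballBody X r) y v) :
    1 - (D + ε) ^ 2 / 2 ≤ ⟪u, v⟫ := by
  have hD2 : D ^ 2 < 2 := by nlinarith
  -- a direction which is positive on `act` is positive on the normals
  have hpos : ∀ x ∈ ballBody X r, ∀ n : E d, UnitNormal (ballBody X r) x n →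
      ∀ w : E d, (∀ u ∈ act X r x, 0 < ⟪w, u⟫) → 0 < ⟪w, n⟫ := by
    intro x hx n hn w hw
    obtain ⟨t, ht0, ht⟩ := ball_dir hr hX hX2 hx w (fun c hc hcr => by
      have h1 := hw _ ⟨c, hc, hcr, rfl⟩
      rw [inner_smul_right] at h1
      exact (mul_pos_iff_of_pos_left (inv_pos.2 hr)).1 h1)
    -- an interior point is strictly below the supporting hyperplane
    rw [mem_interior_iff_mem_nhds, Metric.mem_nhds_iff] at ht
    obtain ⟨ρ, hρ, hball⟩ := ht
    have h2 : x + t • (-w) + (ρ / 2) • n ∈ ballBody X r := by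
      apply hball
      rw [mem_ball, dist_eq_norm, add_sub_cancel_left, norm_smul, hn.1, mul_one,
        Real.norm_of_nonneg (by positivity)]
      linarith
    have h3 := hn.2 _ h2
    rw [inner_add_right, inner_add_right, inner_smul_right, inner_smul_right, inner_neg_right,
      real_inner_self_eq_norm_sq, hn.1, real_inner_comm w n] at h3
    have h4 : 0 < t * ⟪w, n⟫ := by
      have : 0 < ρ / 2 := by positivity
      linarith
    exact (mul_pos_iff_of_pos_left ht0).1 h4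
  have hs : 0 ≤ 1 - (D + ε) ^ 2 / 2 := by linarith
  obtain ⟨z, hz⟩ := exists_dir hr hX hX2 hD2 hx
  obtain ⟨z', hz'⟩ := exists_dir hr hX hX2 hD2 hy
  have hin := act_inner (ε := ε) hr hX hX2 hx hxy
  have h1 := sep_cone hs (act X r y) (act X r x) z u
    (fun n hn w hw => by rw [act_unit hr n hn, mul_one]; exact hin n hn w hw) hz (hpos x hx u hu)
  have h2 := sep_cone hs {u} (act X r y) z' v
    (fun n hn w hw => by
      rw [Set.mem_singleton_iff] at hw
      rw [hw, act_unit hr n hn, mul_one, real_inner_comm]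
      have := h1 n hn
      rwa [hu.1, mul_one] at this) hz' (hpos y hy v hv)
  have h3 := h2 u rfl
  rw [hv.1, mul_one, real_inner_comm] at h3
  exact h3

end Pool.Agent.Run7.h533.CW
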